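import Mathlib
import Pool.Agent.Helper86.Dick.Sieve

/-! # Classes without small primes are inherited by the multiples of the modulus -/

set_option autoImplicit false

namespace Pool.Agent.Helper86.Lin2

open Finset

open scoped Classical in
/-- Few pairs are such that a prime `p > y` divides both `u m + v` and `a c + b`. -/
lemma bad_le (y : ℕ) (hy : 1 ≤ y) (u v : ℤ) (hu : 0 ≤ u) (hv : 0 < v)
    (huv : ∀ p : ℕ, p.Prime → y < p → ¬ ((p : ℤ) ∣ u ∧ (p : ℤ) ∣ v)) (a b : ℤ)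
    (hab : ∀ p : ℕ, p.Prime → y < p → ¬ ((p : ℤ) ∣ a ∧ (p : ℤ) ∣ b))
    (Z N : ℕ) (hZ : ∀ x : ℕ, x < N → u * x + v ≤ (Z : ℤ) * N) :
    (((range N ×ˢ range N).filter (fun x : ℕ × ℕ => ∃ p : ℕ, p.Prime ∧ y < p ∧
      (p : ℤ) ∣ u * x.1 + v ∧ (p : ℤ) ∣ a * x.2 + b)).card : ℝ) ≤
      4 * (N : ℝ) ^ 2 / y + Z * N := by
  set I : Finset ℕ := (Ioc y (Z * N)).filter Nat.Prime with hI
  have hsub : (range N ×ˢ range N).filter (fun x : ℕ × ℕ => ∃ p : ℕ, p.Prime ∧ y < p ∧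
      (p : ℤ) ∣ u * x.1 + v ∧ (p : ℤ) ∣ a * x.2 + b) ⊆
      I.biUnion (fun p => ((range N).filter (fun n : ℕ => (p : ℤ) ∣ u * n + v)) ×ˢ
          ((range N).filter (fun n : ℕ => (p : ℤ) ∣ a * n + b))) := by
    intro x hx
    simp only [mem_filter, mem_product, mem_range] at hx
    obtain ⟨⟨h1, h2⟩, p, hp, hyp, h3, h4⟩ := hx
    simp only [mem_biUnion, mem_product, mem_filter, mem_range, hI, mem_Ioc]
    refine ⟨p, ⟨⟨hyp, ?_⟩, hp⟩, ⟨h1, h3⟩, h2, h4⟩
    have h5 : (p : ℤ) ≤ u * x.1 + v := Int.le_of_dvd (by positivity) h3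
    exact_mod_cast h5.trans (hZ _ h1)
  have hc : (((range N ×ˢ range N).filter (fun x : ℕ × ℕ => ∃ p : ℕ, p.Prime ∧ y < p ∧
      (p : ℤ) ∣ u * x.1 + v ∧ (p : ℤ) ∣ a * x.2 + b)).card : ℝ) ≤
      ∑ p ∈ I, (4 * (N : ℝ) ^ 2 * ((p : ℝ) ^ 2)⁻¹ + 1) := by
    calc (((range N ×ˢ range N).filter (fun x : ℕ × ℕ => ∃ p : ℕ, p.Prime ∧ y < p ∧
      (p : ℤ) ∣ u * x.1 + v ∧ (p : ℤ) ∣ a * x.2 + b)).card : ℝ)
        ≤ ((∑ p ∈ I, (N / p + 1) ^ 2 : ℕ) : ℝ) := by
          norm_cast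
          refine (card_le_card hsub).trans (card_biUnion_le.trans ?_)
          refine sum_le_sum fun p hp => ?_
          simp only [hI, mem_filter, mem_Ioc] at hp
          rw [card_product, sq]
          exact Nat.mul_le_mul (Dick.count_le hp.2 (huv p hp.2 hp.1.1) N)
            (Dick.count_le hp.2 (hab p hp.2 hp.1.1) N)
      _ = ∑ p ∈ I, (((N / p + 1 : ℕ) : ℝ)) ^ 2 := by push_cast; rfl
      _ ≤ _ := by
          refine sum_le_sum fun p hp => ?_
          simp only [hI, mem_filter, mem_Ioc] at hp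
          exact Dick.sq_le hp.2.pos
  refine hc.trans ?_
  have h1 : ∑ p ∈ I, (4 * (N : ℝ) ^ 2 * ((p : ℝ) ^ 2)⁻¹ + 1) ≤
      ∑ p ∈ Ioc y (Z * N), (4 * (N : ℝ) ^ 2 * ((p : ℝ) ^ 2)⁻¹ + 1) := by
    apply sum_le_sum_of_subset_of_nonneg (filter_subset _ _)
    intro p _ _; positivity
  refine h1.trans ?_
  rw [sum_add_distrib, ← mul_sum, sum_const, Nat.card_Ioc, nsmul_eq_mul, mul_one]
  have h2 : ∑ i ∈ Ioc y (Z * N), ((i : ℝ) ^ 2)⁻¹ ≤ (y : ℝ)⁻¹ := by
    by_cases h : y ≤ Z * N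
    · have := sum_Ioc_inv_sq_le_sub (α := ℝ) (k := y) (n := Z * N) (by omega) h
      have h3 : (0 : ℝ) ≤ ((Z * N : ℕ) : ℝ)⁻¹ := by positivity
      linarith
    · rw [Ioc_eq_empty_of_le (by omega)]
      simp
  have h3 : ((Z * N - y : ℕ) : ℝ) ≤ Z * N := by
    calc ((Z * N - y : ℕ) : ℝ) ≤ ((Z * N : ℕ) : ℝ) := by exact_mod_cast Nat.sub_le _ _
      _ = _ := by push_cast; ring
  have h4 : 4 * (N : ℝ) ^ 2 * ∑ i ∈ Ioc y (Z * N), ((i : ℝ) ^ 2)⁻¹ ≤ 4 * (N : ℝ) ^ 2 * (y : ℝ)⁻¹ :=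
    mul_le_mul_of_nonneg_left h2 (by positivity)
  rw [div_eq_mul_inv]
  linarith

/-- The pairs `(q, b)` with `Q < q ≤ 2 Q` and `b` a reduced class modulo `q` which contains no prime up to `B q`. -/
def Pairs (B : ℕ → ℝ) (Q : ℕ) : Set (ℕ × ℕ) :=
  {x | Q < x.1 ∧ x.1 ≤ 2 * Q ∧ x.2 < x.1 ∧ x.1.Coprime x.2 ∧
    ∀ p : ℕ, p.Prime → p ≡ x.2 [MOD x.1] → B x.1 < p}

/-- The moduli `Q < q ≤ 2 Q` with such a class. -/
def Moduli (B : ℕ → ℝ) (Q : ℕ) : Set ℕ := Prod.fst '' Pairs B Q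

lemma pairs_finite (B : ℕ → ℝ) (Q : ℕ) : (Pairs B Q).Finite := by
  refine ((range (2 * Q + 1)) ×ˢ (range (2 * Q + 1))).finite_toSet.subset ?_
  intro x hx
  obtain ⟨h1, h2, h3, -⟩ := hx
  simp only [coe_product, coe_range, Set.mem_prod, Set.mem_Iio]
  omega

lemma small_prime_dvd {p : ℕ} (hp : p.Prime) (h : p ≤ 16) : p ∣ 30030 := by
  interval_cases p <;> first | decide | (exfalso; revert hp; decide)

/-- If a class has no prime up to `X`, then many multiples of the modulus have many such classes. -/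
lemma core {q₀ b₀ : ℕ} (hq : 1 ≤ q₀) (hb : b₀ < q₀) (hc : q₀.Coprime b₀) {X : ℝ}
    (hX : ∀ p : ℕ, p.Prime → p ≡ b₀ [MOD q₀] → X < p) (B : ℕ → ℝ) {N : ℕ} (hN : 240240 ≤ N)
    (hB : ∀ m : ℕ, m ≤ 60060 * N → B (q₀ * m) ≤ X) :
    (N : ℝ) ^ 2 / 2 ≤ (Pairs B (q₀ * (30030 * N))).ncard ∧
      (N : ℝ) / 2 ≤ (Moduli B (q₀ * (30030 * N))).ncard := by
  classical
  set Bad := (range N ×ˢ range N).filter (fun x : ℕ × ℕ => ∃ p : ℕ, p.Prime ∧ 16 < p ∧
      (p : ℤ) ∣ (30030 : ℤ) * x.1 + (30030 * N + 1 : ℕ) ∧ (p : ℤ) ∣ (q₀ : ℤ) * x.2 + (b₀ : ℤ))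
    with hBad
  set S := (range N ×ˢ range N).filter (fun x : ℕ × ℕ => ¬ ∃ p : ℕ, p.Prime ∧ 16 < p ∧
      (p : ℤ) ∣ (30030 : ℤ) * x.1 + (30030 * N + 1 : ℕ) ∧ (p : ℤ) ∣ (q₀ : ℤ) * x.2 + (b₀ : ℤ))
    with hS
  have hbad : (Bad.card : ℝ) ≤ 4 * (N : ℝ) ^ 2 / 16 + 60060 * N := by
    have := bad_le 16 (by norm_num) 30030 ((30030 * N + 1 : ℕ) : ℤ) (by norm_num)
      (by positivity) ?_ (q₀ : ℤ) (b₀ : ℤ) ?_ 60060 N ?_
    · simpa [hBad] using this
    · rintro p hp - ⟨h1, h2⟩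
      have h3 : p ∣ 30030 := by exact_mod_cast h1
      have h4 : p ∣ 30030 * N + 1 := by exact_mod_cast h2
      have h5 : p ∣ 1 := (Nat.dvd_add_right (h3.mul_right N)).mp h4
      exact hp.one_lt.ne' (Nat.dvd_one.mp h5)
    · rintro p hp - ⟨h1, h2⟩
      have h3 : p ∣ q₀ := by exact_mod_cast h1
      have h4 : p ∣ b₀ := by exact_mod_cast h2
      exact Nat.not_coprime_of_dvd_of_dvd hp.one_lt h3 h4 hc
    · intro x hx
      push_cast
      have : (x : ℤ) ≤ N - 1 := by omega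
      linarith
  have hsum : (S.card : ℝ) + Bad.card = (N : ℝ) ^ 2 := by
    have := Finset.card_filter_add_card_filter_not (s := range N ×ˢ range N)
      (fun x : ℕ × ℕ => ∃ p : ℕ, p.Prime ∧ 16 < p ∧
      (p : ℤ) ∣ (30030 : ℤ) * x.1 + (30030 * N + 1 : ℕ) ∧ (p : ℤ) ∣ (q₀ : ℤ) * x.2 + (b₀ : ℤ))
    rw [card_product, card_range] at this
    have h2 : Bad.card + S.card = N * N := this
    have h3 : ((Bad.card + S.card : ℕ) : ℝ) = ((N * N : ℕ) : ℝ) := by rw [h2]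
    push_cast at h3
    nlinarith
  have hN' : (240240 : ℝ) ≤ N := by exact_mod_cast hN
  have hScard : (N : ℝ) ^ 2 / 2 ≤ S.card := by nlinarith
  -- the map
  set f : ℕ × ℕ → ℕ × ℕ := fun x => (q₀ * (30030 * (x.1 + N) + 1), b₀ + q₀ * x.2) with hf
  have hmaps : ∀ x ∈ S, f x ∈ Pairs B (q₀ * (30030 * N)) := by
    intro x hx
    simp only [hS, mem_filter, mem_product, mem_range] at hx
    obtain ⟨⟨h1, h2⟩, h3⟩ := hx
    refine ⟨?_, ?_, ?_, ?_, ?_⟩
    · exact Nat.mul_lt_mul_of_pos_left (by omega) (by omega)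
    · calc q₀ * (30030 * (x.1 + N) + 1) ≤ q₀ * (60060 * N) :=
          Nat.mul_le_mul_left _ (by omega)
        _ = 2 * (q₀ * (30030 * N)) := by ring
    · calc b₀ + q₀ * x.2 < q₀ + q₀ * x.2 := by omega
        _ = q₀ * (x.2 + 1) := by ring
        _ ≤ q₀ * (30030 * (x.1 + N) + 1) := Nat.mul_le_mul_left _ (by omega)
    · have c1 : q₀.Coprime (b₀ + q₀ * x.2) := by
        rwa [Nat.coprime_add_mul_left_right]
      have c2 : (30030 * (x.1 + N) + 1).Coprime (b₀ + q₀ * x.2) := by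
        apply Nat.coprime_of_dvd
        intro p hp h4 h5
        by_cases h6 : p ≤ 16
        · have h7 : p ∣ 1 := (Nat.dvd_add_right ((small_prime_dvd hp h6).mul_right _)).mp h4
          exact hp.one_lt.ne' (Nat.dvd_one.mp h7)
        · apply h3
          refine ⟨p, hp, by omega, ?_, ?_⟩
          · have : ((30030 * (x.1 + N) + 1 : ℕ) : ℤ) = 30030 * x.1 + (30030 * N + 1 : ℕ) := by
              push_cast; ring
            rw [← this]; exact_mod_cast h4
          · have : ((b₀ + q₀ * x.2 : ℕ) : ℤ) = q₀ * x.2 + b₀ := by push_cast; ring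
            rw [← this]; exact_mod_cast h5
      exact Nat.Coprime.mul_left c1 c2
    · intro p hp hmod
      have h4 : p ≡ b₀ [MOD q₀] := by
        have h5 : p ≡ b₀ + q₀ * x.2 [MOD q₀] := Nat.ModEq.of_mul_right _ hmod
        refine h5.trans ?_
        simp [Nat.ModEq]
      exact (hB _ (by omega)).trans_lt (hX p hp h4)
  have hinj : Set.InjOn f S := by
    intro x hx y hy hxy
    simp only [hf, Prod.mk.injEq] at hxy
    obtain ⟨h1, h2⟩ := hxy
    have h3 := Nat.eq_of_mul_eq_mul_left (by omega) h1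
    have h4 := Nat.eq_of_mul_eq_mul_left (show 0 < q₀ by omega) (Nat.add_left_cancel h2)
    exact Prod.ext (by omega) h4
  have hpairs : S.card ≤ (Pairs B (q₀ * (30030 * N))).ncard := by
    rw [← Set.ncard_coe_finset S, ← Set.InjOn.ncard_image hinj]
    apply Set.ncard_le_ncard _ (pairs_finite _ _)
    rintro _ ⟨x, hx, rfl⟩
    exact hmaps x hx
  refine ⟨hScard.trans (by exact_mod_cast hpairs), ?_⟩
  -- moduli
  set I := S.image Prod.fst with hI
  have hSI : S.card ≤ I.card * N := by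
    calc S.card ≤ (I ×ˢ range N).card := by
          apply card_le_card
          intro x hx
          rw [mem_product]
          refine ⟨mem_image_of_mem _ hx, ?_⟩
          simp only [hS, mem_filter, mem_product] at hx
          exact hx.1.2
      _ = I.card * N := by rw [card_product, card_range]
  have hIM : I.card ≤ (Moduli B (q₀ * (30030 * N))).ncard := by
    have hinj2 : Set.InjOn (fun i : ℕ => q₀ * (30030 * (i + N) + 1)) (I : Set ℕ) := by
      intro i _ j _ hij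
      have := Nat.eq_of_mul_eq_mul_left (show 0 < q₀ by omega) hij
      omega
    rw [← Set.ncard_coe_finset I, ← Set.InjOn.ncard_image hinj2]
    apply Set.ncard_le_ncard _ ((pairs_finite _ _).image _)
    rintro _ ⟨i, hi, rfl⟩
    simp only [hI, coe_image, Set.mem_image, mem_coe] at hi
    obtain ⟨x, hx, rfl⟩ := hi
    exact ⟨f x, hmaps x hx, rfl⟩
  have h1 : (S.card : ℝ) ≤ I.card * N := by exact_mod_cast hSI
  have h2 : (I.card : ℝ) ≤ (Moduli B (q₀ * (30030 * N))).ncard := by exact_mod_cast hIM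
  have hN0 : (0 : ℝ) < N := by linarith
  have h3 : (N : ℝ) / 2 * N ≤ I.card * N := by nlinarith
  exact (le_of_mul_le_mul_right h3 hN0).trans h2

lemma totient_mul_le (a b : ℕ) : (a * b).totient ≤ a.totient * b := by
  induction b using induction_on_primes with
  | zero => simp
  | one => simp
  | prime_mul p b hp ih =>
    have h1 : a * (p * b) = p * (a * b) := by ring
    rw [h1]
    have h2 : (p * (a * b)).totient ≤ p * (a * b).totient := by
      by_cases h : p ∣ a * b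
      · rw [Nat.totient_mul_of_prime_of_dvd hp h]
      · rw [Nat.totient_mul_of_prime_of_not_dvd hp h]
        exact Nat.mul_le_mul_right _ (Nat.sub_le _ _)
    calc (p * (a * b)).totient ≤ p * (a * b).totient := h2
      _ ≤ p * (a.totient * b) := Nat.mul_le_mul_left _ ih
      _ = a.totient * (p * b) := by ring

end Pool.Agent.Helper86.Lin2
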