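import Mathlib
import Pool.Agent.Helper86.Lin2.Core

/-! # Few exceptional moduli or classes imply bounds for all least primes -/

set_option autoImplicit false

namespace Pool.Agent.Helper86.Lin2

open Filter Real

/-- For all large `q` every reduced class modulo `q` contains a prime which is at most `g q`. -/
def Holds (g : ℕ → ℝ) : Prop :=
  ∀ᶠ q : ℕ in atTop, ∀ b : ℕ, q.Coprime b → ∃ p : ℕ, p.Prime ∧ p ≡ b [MOD q] ∧ (p : ℝ) ≤ g q

lemma reduce {q : ℕ} (hq : 1 ≤ q) {X : ℝ}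
    (h : ∀ b₀ : ℕ, b₀ < q → q.Coprime b₀ → ¬ ∀ p : ℕ, p.Prime → p ≡ b₀ [MOD q] → X < p) :
    ∀ b : ℕ, q.Coprime b → ∃ p : ℕ, p.Prime ∧ p ≡ b [MOD q] ∧ (p : ℝ) ≤ X := by
  intro b hb
  have h1 : q.Coprime (b % q) := by
    have h0 : Nat.gcd (b % q) q = 1 := by rw [← Nat.gcd_rec]; exact hb
    exact Nat.Coprime.symm h0
  have h2 := h (b % q) (Nat.mod_lt _ (by omega)) h1
  push Not at h2
  obtain ⟨p, hp, h3, h4⟩ := h2
  exact ⟨p, hp, h3.trans (Nat.mod_modEq b q), h4⟩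

theorem log_version (C K A : ℝ) (hC : 0 ≤ C) (hA : 0 ≤ A)
    (h : ∀ᶠ Q : ℕ in atTop,
      ((Moduli (fun q => C * q.totient * log q ^ 2) Q).ncard : ℝ) ≤ K * log Q ^ A ∨
      ((Pairs (fun q => C * q.totient * log q ^ 2) Q).ncard : ℝ) ≤ K * log Q ^ (2 * A)) :
    ∃ C' : ℝ, Holds fun q => C' * q.totient * log q ^ (2 + A) := by
  -- we may assume `K ≥ 0`
  wlog hK : 0 ≤ K generalizing K
  · refine this (max K 0) ?_ (le_max_right _ _)
    filter_upwards [h, eventually_ge_atTop 1] with Q hQ hQ1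
    have h1 : 0 ≤ log (Q : ℝ) := log_nonneg (by exact_mod_cast hQ1)
    rcases hQ with hQ | hQ
    · left
      exact hQ.trans (mul_le_mul_of_nonneg_right (le_max_left _ _) (rpow_nonneg h1 _))
    · right
      exact hQ.trans (mul_le_mul_of_nonneg_right (le_max_left _ _) (rpow_nonneg h1 _))
  set B : ℕ → ℝ := fun q => C * q.totient * log q ^ 2 with hBdef
  set T : ℝ := (2 : ℝ) ^ (2 * A) with hT
  have hT1 : 1 ≤ T := one_le_rpow (by norm_num) (by linarith)
  have hTA : (2 : ℝ) ^ A ≤ T := rpow_le_rpow_of_exponent_le (by norm_num) (by linarith)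
  set D : ℝ := 240240 + 2 * K * T with hD
  have hD0 : 240240 ≤ D := by
    have : 0 ≤ 2 * K * T := by positivity
    linarith
  refine ⟨240240 * C * (D + 1), ?_⟩
  obtain ⟨Q₀, hQ₀⟩ := eventually_atTop.mp h
  have e1 : ∀ᶠ q : ℕ in atTop, 1 ≤ log (q : ℝ) :=
    (tendsto_log_atTop.comp tendsto_natCast_atTop_atTop).eventually_ge_atTop 1
  have e2 : ∀ᶠ q : ℕ in atTop, 60060 * (D + 1) * log (q : ℝ) ^ A ≤ q := by
    have h1 := (isLittleO_log_rpow_rpow_atTop (s := 1) A one_pos).bound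
      (show (0 : ℝ) < 1 / (60060 * (D + 1)) by positivity)
    have h2 := tendsto_natCast_atTop_atTop (R := ℝ) |>.eventually h1
    filter_upwards [h2, e1] with q hq hq1
    rw [norm_of_nonneg (rpow_nonneg (by linarith) _), rpow_one,
      norm_of_nonneg (Nat.cast_nonneg _)] at hq
    rw [one_div, ← div_eq_inv_mul, le_div_iff₀ (by positivity)] at hq
    linarith
  filter_upwards [e1, e2, eventually_ge_atTop (Q₀ + 1)] with q hq1 hq2 hq3
  apply reduce (by omega)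
  intro b₀ hb₀ hcop hX
  set ℓ : ℝ := log (q : ℝ) with hℓ
  have hℓA : 1 ≤ ℓ ^ A := one_le_rpow hq1 hA
  set N : ℕ := ⌈D * ℓ ^ A⌉₊ with hN
  have hN1 : D * ℓ ^ A ≤ N := Nat.le_ceil _
  have hN2 : (N : ℝ) ≤ (D + 1) * ℓ ^ A := by
    have := (Nat.ceil_lt_add_one (show 0 ≤ D * ℓ ^ A by positivity)).le
    linarith
  have hNbig : 240240 ≤ N := by
    have h1 : (240240 : ℝ) ≤ N := by nlinarith
    exact_mod_cast h1
  have hq0 : (1 : ℝ) ≤ q := by
    have : 1 ≤ q := by omega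
    exact_mod_cast this
  have hqN : 60060 * (N : ℝ) ≤ q := by nlinarith
  have hlog : ∀ m : ℕ, 1 ≤ m → m ≤ 60060 * N → log ((q * m : ℕ) : ℝ) ≤ 2 * ℓ ∧
      0 ≤ log ((q * m : ℕ) : ℝ) := by
    intro m hm1 hm
    have h1 : (1 : ℝ) ≤ m := by exact_mod_cast hm1
    have h2 : (m : ℝ) ≤ q := by
      have : (m : ℝ) ≤ 60060 * N := by exact_mod_cast hm
      linarith
    push_cast
    constructor
    · rw [log_mul (by positivity) (by positivity)]
      have := log_le_log (by positivity) h2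
      linarith
    · exact log_nonneg (by nlinarith)
  have hcore := core (by omega) hb₀ hcop hX B hNbig ?_
  · set Q : ℕ := q * (30030 * N) with hQ
    have hQ0 : Q₀ ≤ Q := by
      have h1 : q * 1 ≤ q * (30030 * N) := Nat.mul_le_mul_left _ (by omega)
      omega
    have hlQ := hlog (30030 * N) (by omega) (by omega)
    rw [← hQ] at hlQ
    have h2ℓ : (2 * ℓ) ^ A = 2 ^ A * ℓ ^ A := mul_rpow (by norm_num) (by linarith)
    have h2ℓ' : (2 * ℓ) ^ (2 * A) = T * (ℓ ^ A) ^ 2 := by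
      rw [mul_rpow (by norm_num) (by linarith), mul_comm 2 A, rpow_mul (by linarith : (0 : ℝ) ≤ ℓ)]
      norm_cast
      rw [mul_comm A 2]
    rcases hQ₀ Q hQ0 with h1 | h1
    · have h2 := hcore.2.trans h1
      have h3 : K * log (Q : ℝ) ^ A ≤ K * (T * ℓ ^ A) := by
        apply mul_le_mul_of_nonneg_left _ hK
        calc log (Q : ℝ) ^ A ≤ (2 * ℓ) ^ A := rpow_le_rpow hlQ.2 hlQ.1 hA
          _ = 2 ^ A * ℓ ^ A := h2ℓ
          _ ≤ T * ℓ ^ A := mul_le_mul_of_nonneg_right hTA (by positivity)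
      have h4 : D * ℓ ^ A ≤ 2 * K * T * ℓ ^ A := by linarith
      have h5 := le_of_mul_le_mul_right h4 (by positivity)
      linarith
    · have h2 := hcore.1.trans h1
      have h3 : K * log (Q : ℝ) ^ (2 * A) ≤ K * (T * (ℓ ^ A) ^ 2) := by
        apply mul_le_mul_of_nonneg_left _ hK
        rw [← h2ℓ']
        exact rpow_le_rpow hlQ.2 hlQ.1 (by linarith)
      have h4 : (D * ℓ ^ A) ^ 2 ≤ (N : ℝ) ^ 2 := pow_le_pow_left₀ (by positivity) hN1 2
      have h5 : D ^ 2 * (ℓ ^ A) ^ 2 ≤ 2 * K * T * (ℓ ^ A) ^ 2 := by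
        rw [mul_pow] at h4
        linarith
      have h6 := le_of_mul_le_mul_right h5 (by positivity)
      nlinarith
  · intro m hm
    simp only [hBdef]
    have hX' : 240240 * C * (D + 1) * (q.totient : ℝ) * ℓ ^ (2 + A) =
        C * (q.totient * (60060 * ((D + 1) * ℓ ^ A))) * (2 * ℓ) ^ 2 := by
      rw [rpow_add (by linarith)]
      norm_cast
      ring
    rw [hX']
    rcases Nat.eq_zero_or_pos m with rfl | hm0
    · simp only [mul_zero, Nat.totient_zero, Nat.cast_zero, zero_mul]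
      positivity
    · obtain ⟨h1, h2⟩ := hlog m hm0 hm
      have h3 : ((q * m).totient : ℝ) ≤ q.totient * (60060 * ((D + 1) * ℓ ^ A)) := by
        calc ((q * m).totient : ℝ) ≤ ((q.totient * m : ℕ) : ℝ) := by
              exact_mod_cast totient_mul_le q m
          _ = q.totient * (m : ℝ) := by push_cast; ring
          _ ≤ q.totient * (60060 * ((D + 1) * ℓ ^ A)) := by
              apply mul_le_mul_of_nonneg_left _ (Nat.cast_nonneg _)
              have h4 : (m : ℝ) ≤ 60060 * N := by exact_mod_cast hm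
              linarith
      have h4 : log ((q * m : ℕ) : ℝ) ^ 2 ≤ (2 * ℓ) ^ 2 := pow_le_pow_left₀ h2 h1 2
      exact mul_le_mul (mul_le_mul_of_nonneg_left h3 hC) h4 (by positivity) (by positivity)

theorem pow_version (lam θ K : ℝ) (hlam : 0 ≤ lam) (hθ : 0 ≤ θ) (hθ1 : θ < 1)
    (h : ∀ᶠ Q : ℕ in atTop,
      ((Moduli (fun q => (q : ℝ) ^ lam) Q).ncard : ℝ) ≤ K * (Q : ℝ) ^ θ ∨
      ((Pairs (fun q => (q : ℝ) ^ lam) Q).ncard : ℝ) ≤ K * (Q : ℝ) ^ (2 * θ)) :
    ∃ C' : ℝ, Holds fun q => C' * (q : ℝ) ^ (lam / (1 - θ)) := by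
  wlog hK : 0 ≤ K generalizing K
  · refine this (max K 0) ?_ (le_max_right _ _)
    filter_upwards [h] with Q hQ
    rcases hQ with hQ | hQ
    · left
      exact hQ.trans (mul_le_mul_of_nonneg_right (le_max_left _ _) (by positivity))
    · right
      exact hQ.trans (mul_le_mul_of_nonneg_right (le_max_left _ _) (by positivity))
  set B : ℕ → ℝ := fun q => (q : ℝ) ^ lam with hBdef
  have h1θ : 0 < 1 - θ := by linarith
  set R : ℝ := (30030 : ℝ) ^ (2 * θ) with hR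
  have hR1 : 1 ≤ R := one_le_rpow (by norm_num) (by linarith)
  have hRA : (30030 : ℝ) ^ θ ≤ R := rpow_le_rpow_of_exponent_le (by norm_num) (by linarith)
  set T : ℝ := 1 + 2 * K * R with hT
  have hT1 : 1 ≤ T := by
    have : 0 ≤ 2 * K * R := by positivity
    linarith
  set D : ℝ := 240240 + T ^ (1 / (1 - θ)) with hD
  have hD0 : 240240 ≤ D := by
    have : 0 ≤ T ^ (1 / (1 - θ)) := by positivity
    linarith
  have hDT : T ≤ D ^ (1 - θ) := by
    calc T = (T ^ (1 / (1 - θ))) ^ (1 - θ) := by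
          rw [← rpow_mul (by linarith), one_div, inv_mul_cancel₀ h1θ.ne', rpow_one]
      _ ≤ D ^ (1 - θ) := rpow_le_rpow (by positivity) (by linarith) h1θ.le
  refine ⟨(60060 * (D + 1)) ^ lam, ?_⟩
  obtain ⟨Q₀, hQ₀⟩ := eventually_atTop.mp h
  filter_upwards [eventually_ge_atTop (Q₀ + 1)] with q hq3
  apply reduce (by omega)
  intro b₀ hb₀ hcop hX
  have hq0 : (1 : ℝ) ≤ q := by
    have : 1 ≤ q := by omega
    exact_mod_cast this
  set ℓ : ℝ := (q : ℝ) ^ (θ / (1 - θ)) with hℓ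
  have hℓ1 : 1 ≤ ℓ := one_le_rpow hq0 (by positivity)
  have hℓθ : ℓ ^ (1 - θ) = (q : ℝ) ^ θ := by
    rw [hℓ, ← rpow_mul (by linarith), div_mul_cancel₀ _ h1θ.ne']
  have hqℓ : (q : ℝ) * ℓ = (q : ℝ) ^ (1 / (1 - θ)) := by
    rw [hℓ]
    nth_rewrite 1 [← rpow_one (q : ℝ)]
    rw [← rpow_add (by linarith)]
    congr 1
    field_simp
    ring
  set N : ℕ := ⌈D * ℓ⌉₊ with hN
  have hN1 : D * ℓ ≤ N := Nat.le_ceil _
  have hN2 : (N : ℝ) ≤ (D + 1) * ℓ := by
    have := (Nat.ceil_lt_add_one (show 0 ≤ D * ℓ by positivity)).le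
    linarith
  have hNbig : 240240 ≤ N := by
    have h1 : (240240 : ℝ) ≤ N := by nlinarith
    exact_mod_cast h1
  have hN0 : (0 : ℝ) < N := by
    have : (240240 : ℝ) ≤ N := by exact_mod_cast hNbig
    linarith
  have hcore := core (by omega) hb₀ hcop hX B hNbig ?_
  · set Q : ℕ := q * (30030 * N) with hQ
    have hQ0 : Q₀ ≤ Q := by
      have h1 : q * 1 ≤ q * (30030 * N) := Nat.mul_le_mul_left _ (by omega)
      omega
    have hQr : (Q : ℝ) = 30030 * q * N := by rw [hQ]; push_cast; ring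
    have hNθ : T * (q : ℝ) ^ θ ≤ (N : ℝ) ^ (1 - θ) := by
      calc T * (q : ℝ) ^ θ ≤ D ^ (1 - θ) * ℓ ^ (1 - θ) := by
            rw [hℓθ]; exact mul_le_mul_of_nonneg_right hDT (by positivity)
        _ = (D * ℓ) ^ (1 - θ) := (mul_rpow (by linarith) (by linarith)).symm
        _ ≤ (N : ℝ) ^ (1 - θ) := rpow_le_rpow (by positivity) hN1 h1θ.le
    have hsplit : (N : ℝ) ^ (1 - θ) * (N : ℝ) ^ θ = N := by
      rw [← rpow_add hN0]; simp
    have hNpos : 0 < (N : ℝ) ^ θ := rpow_pos_of_pos hN0 _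
    have hqpos : 0 < (q : ℝ) ^ θ := rpow_pos_of_pos (by linarith) _
    have hKR : 0 ≤ K * R := by positivity
    rcases hQ₀ Q hQ0 with h1 | h1
    · have h2 := hcore.2.trans h1
      have h3 : K * (Q : ℝ) ^ θ ≤ K * R * (q : ℝ) ^ θ * (N : ℝ) ^ θ := by
        rw [hQr, mul_rpow (by positivity) (by positivity), mul_rpow (by norm_num) (by positivity)]
        have : K * (30030 : ℝ) ^ θ ≤ K * R := mul_le_mul_of_nonneg_left hRA hK
        calc K * (30030 ^ θ * (q : ℝ) ^ θ * (N : ℝ) ^ θ)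
            = K * 30030 ^ θ * ((q : ℝ) ^ θ * (N : ℝ) ^ θ) := by ring
          _ ≤ K * R * ((q : ℝ) ^ θ * (N : ℝ) ^ θ) :=
              mul_le_mul_of_nonneg_right this (by positivity)
          _ = _ := by ring
      have h4 : T * (q : ℝ) ^ θ * (N : ℝ) ^ θ ≤ 2 * K * R * (q : ℝ) ^ θ * (N : ℝ) ^ θ := by
        calc T * (q : ℝ) ^ θ * (N : ℝ) ^ θ ≤ (N : ℝ) ^ (1 - θ) * (N : ℝ) ^ θ :=
              mul_le_mul_of_nonneg_right hNθ hNpos.le
          _ = N := hsplit
          _ ≤ _ := by linarith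
      have h5 := le_of_mul_le_mul_right (le_of_mul_le_mul_right h4 hNpos) hqpos
      linarith
    · have h2 := hcore.1.trans h1
      have hsq : ∀ x : ℝ, 0 < x → x ^ (2 * θ) = (x ^ θ) ^ 2 := by
        intro x hx
        rw [mul_comm, rpow_mul hx.le]
        norm_cast
      have h3 : K * (Q : ℝ) ^ (2 * θ) = K * R * ((q : ℝ) ^ θ * (N : ℝ) ^ θ) ^ 2 := by
        rw [hQr, mul_rpow (by positivity) (by positivity), mul_rpow (by norm_num) (by positivity),
          hsq q (by linarith), hsq N hN0, ← hR]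
        ring
      have h4 : (T * (q : ℝ) ^ θ * (N : ℝ) ^ θ) ^ 2 ≤ (N : ℝ) ^ 2 := by
        apply pow_le_pow_left₀ (by positivity)
        calc T * (q : ℝ) ^ θ * (N : ℝ) ^ θ ≤ (N : ℝ) ^ (1 - θ) * (N : ℝ) ^ θ :=
              mul_le_mul_of_nonneg_right hNθ hNpos.le
          _ = N := hsplit
      have h5 : T ^ 2 * ((q : ℝ) ^ θ * (N : ℝ) ^ θ) ^ 2 ≤
          2 * K * R * ((q : ℝ) ^ θ * (N : ℝ) ^ θ) ^ 2 := by
        rw [h3] at h2
        calc T ^ 2 * ((q : ℝ) ^ θ * (N : ℝ) ^ θ) ^ 2 = (T * (q : ℝ) ^ θ * (N : ℝ) ^ θ) ^ 2 := by ring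
          _ ≤ (N : ℝ) ^ 2 := h4
          _ ≤ _ := by linarith
      have h6 := le_of_mul_le_mul_right h5 (by positivity)
      nlinarith
  · intro m hm
    simp only [hBdef]
    have hm' : (m : ℝ) ≤ 60060 * N := by exact_mod_cast hm
    have hX' : (60060 * (D + 1)) ^ lam * (q : ℝ) ^ (lam / (1 - θ)) =
        (60060 * (D + 1) * ((q : ℝ) * ℓ)) ^ lam := by
      rw [hqℓ, mul_rpow (x := 60060 * (D + 1)) (y := (q : ℝ) ^ (1 / (1 - θ))) (by positivity)
        (by positivity), ← rpow_mul (by linarith)]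
      congr 2
      ring
    rw [hX']
    apply rpow_le_rpow (by positivity) _ hlam
    push_cast
    nlinarith [mul_le_mul_of_nonneg_left hm' (by linarith : (0 : ℝ) ≤ q),
      mul_le_mul_of_nonneg_left hN2 (by linarith : (0 : ℝ) ≤ (q : ℝ))]

lemma moduli_empty {B : ℕ → ℝ} (h : Holds B) : ∀ᶠ Q : ℕ in atTop, Moduli B Q = ∅ := by
  obtain ⟨q₀, hq₀⟩ := eventually_atTop.mp h
  filter_upwards [eventually_ge_atTop q₀] with Q hQ
  rw [Moduli, Set.image_eq_empty, Set.eq_empty_iff_forall_notMem]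
  rintro ⟨q, b⟩ ⟨h1, -, -, h4, h5⟩
  obtain ⟨p, hp, hpb, hpB⟩ := hq₀ q (by simp only at h1; omega) b h4
  exact absurd (h5 p hp hpb) (not_lt.mpr hpB)

theorem bound_iff : (∃ C : ℝ, Holds fun q => C * q.totient * log q ^ 2) ↔
    ∃ C K : ℝ, 0 ≤ C ∧ ∀ᶠ Q : ℕ in atTop,
      ((Moduli (fun q => C * q.totient * log q ^ 2) Q).ncard : ℝ) ≤ K := by
  constructor
  · rintro ⟨C, hC⟩
    refine ⟨max C 0, 0, le_max_right _ _, ?_⟩
    have h1 : Holds fun q : ℕ => max C 0 * q.totient * log q ^ 2 := by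
      filter_upwards [hC] with q hq b hb
      obtain ⟨p, h1, h2, h3⟩ := hq b hb
      refine ⟨p, h1, h2, h3.trans ?_⟩
      rw [mul_assoc, mul_assoc]
      exact mul_le_mul_of_nonneg_right (le_max_left _ _) (by positivity)
    filter_upwards [moduli_empty h1] with Q hQ
    rw [hQ]; simp
  · rintro ⟨C, K, hC, h⟩
    obtain ⟨C', h'⟩ := log_version C K 0 hC le_rfl (by
      filter_upwards [h] with Q hQ
      left
      simpa using hQ)
    refine ⟨C', ?_⟩
    filter_upwards [h'] with q hq b hb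
    obtain ⟨p, h1, h2, h3⟩ := hq b hb
    refine ⟨p, h1, h2, h3.trans (le_of_eq ?_)⟩
    rw [add_zero]
    norm_cast

theorem linnik_one_iff : (∀ ε : ℝ, 0 < ε → Holds fun q => (q : ℝ) ^ (1 + ε)) ↔
    ∀ lam θ : ℝ, 1 < lam → 0 < θ → ∀ᶠ Q : ℕ in atTop,
      ((Moduli (fun q => (q : ℝ) ^ lam) Q).ncard : ℝ) ≤ (Q : ℝ) ^ θ := by
  constructor
  · intro h lam θ hlam hθ
    have h1 := h (lam - 1) (by linarith)
    rw [show (1 : ℝ) + (lam - 1) = lam by ring] at h1
    filter_upwards [moduli_empty h1] with Q hQ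
    rw [hQ]; simp; positivity
  · intro h ε hε
    set θ : ℝ := ε / (4 * (1 + ε)) with hθ
    have hθ0 : 0 < θ := by positivity
    have hθ1 : θ * (1 + ε) = ε / 4 := by rw [hθ]; field_simp
    have hθ2 : θ < 1 := by
      rw [hθ, div_lt_one (by positivity)]; linarith
    obtain ⟨C', h'⟩ := pow_version (1 + ε / 4) θ 1 (by positivity) hθ0.le hθ2 (by
      filter_upwards [h (1 + ε / 4) θ (by linarith) hθ0] with Q hQ
      left; simpa using hQ)
    set μ : ℝ := (1 + ε / 4) / (1 - θ) with hμ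
    have hμ1 : μ < 1 + ε := by
      rw [hμ, div_lt_iff₀ (by linarith)]
      nlinarith
    have h2 : ∀ᶠ q : ℕ in atTop, C' * (q : ℝ) ^ μ ≤ (q : ℝ) ^ (1 + ε) := by
      have h3 : ∀ᶠ q : ℕ in atTop, C' ≤ (q : ℝ) ^ (1 + ε - μ) :=
        ((tendsto_rpow_atTop (by linarith)).comp tendsto_natCast_atTop_atTop).eventually_ge_atTop C'
      filter_upwards [h3, eventually_ge_atTop 1] with q hq hq1
      have hq1' : (0 : ℝ) < q := by exact_mod_cast hq1
      calc C' * (q : ℝ) ^ μ ≤ (q : ℝ) ^ (1 + ε - μ) * (q : ℝ) ^ μ :=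
            mul_le_mul_of_nonneg_right hq (by positivity)
        _ = (q : ℝ) ^ (1 + ε) := by rw [← rpow_add hq1']; congr 1; ring
    filter_upwards [h', h2] with q hq hq2 b hb
    obtain ⟨p, h1, h3, h4⟩ := hq b hb
    exact ⟨p, h1, h3, h4.trans hq2⟩

end Pool.Agent.Helper86.Lin2
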